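import Pool.Agent.L5helper54.NC.Basic

/-!
The gate between two column ports.
-/

namespace L5helper34.NC.G

open Finset MvPolynomial L5helper59.DC L5lead.NC

set_option linter.unusedSectionVars false

section

variable {α β P Q : Type} [Fintype α] [Fintype β] [Fintype P] [Fintype Q] [DecidableEq α]
  [DecidableEq β] [DecidableEq P] [DecidableEq Q] {R : Type*} [CommRing R]

/-- a new row -/
def nr (b₁ b₂ : β) (x₁ x₂ u₁ u₂ : R) : Option (Option Q) ⊕ β → R
  | Sum.inl none => x₁
  | Sum.inl (some none) => x₂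
  | Sum.inl (some (some _)) => 0
  | Sum.inr b => if b = b₁ then u₁ else if b = b₂ then u₂ else 0

/-- an old row -/
def orow (b₁ b₂ : β) (N : Q ⊕ β → R) : Option (Option Q) ⊕ β → R
  | Sum.inl none => N (Sum.inr b₁)
  | Sum.inl (some none) => N (Sum.inr b₂)
  | Sum.inl (some (some q)) => N (Sum.inl q)
  | Sum.inr b => if b = b₁ then 0 else if b = b₂ then 0 else N (Sum.inr b)

/-- the gate matrix -/
def gm (b₁ b₂ : β) (x₁ x₂ u₁ u₂ y₁ y₂ v₁ v₂ : R) (N : P ⊕ α → Q ⊕ β → R) :
    Option (Option P) ⊕ α → Option (Option Q) ⊕ β → R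
  | Sum.inl none => nr b₁ b₂ x₁ x₂ u₁ u₂
  | Sum.inl (some none) => nr b₁ b₂ y₁ y₂ v₁ v₂
  | Sum.inl (some (some p)) => orow b₁ b₂ (N (Sum.inl p))
  | Sum.inr a => orow b₁ b₂ (N (Sum.inr a))

/-- old rows -/
def fr : P ⊕ α ↪ Option (Option P) ⊕ α where
  toFun := Sum.elim (fun p => Sum.inl (some (some p))) Sum.inr
  inj' := by rintro (x | x) (y | y) h <;> simp_all

theorem fr_inl (p : P) : fr (α := α) (Sum.inl p : P ⊕ α) = Sum.inl (some (some p)) := rfl

theorem fr_inr (a : α) : fr (P := P) (Sum.inr a : P ⊕ α) = Sum.inr a := rfl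

/-- old columns -/
def gc (b₁ b₂ : β) (hb : b₁ ≠ b₂) : Q ⊕ β ↪ Option (Option Q) ⊕ β where
  toFun := Sum.elim (fun q => Sum.inl (some (some q)))
    (fun b => if b = b₁ then Sum.inl none else if b = b₂ then Sum.inl (some none) else Sum.inr b)
  inj' := by
    rintro (x | x) (y | y) h
    · simp_all
    · simp only [Sum.elim_inl, Sum.elim_inr] at h
      split_ifs at h <;> simp_all
    · simp only [Sum.elim_inl, Sum.elim_inr] at h
      split_ifs at h <;> simp_all
    · simp only [Sum.elim_inr] at h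
      split_ifs at h <;> simp_all

theorem gc_inl (b₁ b₂ : β) (hb : b₁ ≠ b₂) (q : Q) :
    gc b₁ b₂ hb (Sum.inl q) = Sum.inl (some (some q)) := rfl

theorem gc_inr (b₁ b₂ : β) (hb : b₁ ≠ b₂) (b : β) :
    gc (Q := Q) b₁ b₂ hb (Sum.inr b) = if b = b₁ then Sum.inl none else if b = b₂ then
      Sum.inl (some none) else Sum.inr b := rfl

theorem mem_gc (b₁ b₂ : β) (hb : b₁ ≠ b₂) (T : Finset β) (y : Option (Option Q) ⊕ β) :
    y ∈ ((univ : Finset Q).disjSum T).map (gc b₁ b₂ hb) ↔
      (y = Sum.inl none ∧ b₁ ∈ T) ∨ (y = Sum.inl (some none) ∧ b₂ ∈ T) ∨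
      (∃ q, y = Sum.inl (some (some q))) ∨ (∃ b ∈ T, b ≠ b₁ ∧ b ≠ b₂ ∧ y = Sum.inr b) := by
  rw [mem_map]
  constructor
  · rintro ⟨z, hz, rfl⟩
    rcases z with q | b
    · exact Or.inr (Or.inr (Or.inl ⟨q, rfl⟩))
    · have hbT : b ∈ T := by simpa using hz
      by_cases h1 : b = b₁
      · subst h1
        left
        exact ⟨by simp [gc_inr], hbT⟩
      · by_cases h2 : b = b₂
        · subst h2
          right; left
          exact ⟨by simp [gc_inr, h1], hbT⟩
        · right; right; right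
          exact ⟨b, hbT, h1, h2, by simp [gc_inr, h1, h2]⟩
  · rintro (⟨rfl, h⟩ | ⟨rfl, h⟩ | ⟨q, rfl⟩ | ⟨b, h, h1, h2, rfl⟩)
    · exact ⟨Sum.inr b₁, by simpa using h, by simp [gc_inr]⟩
    · exact ⟨Sum.inr b₂, by simpa using h, by simp [gc_inr, hb.symm]⟩
    · exact ⟨Sum.inl q, by simp, rfl⟩
    · exact ⟨Sum.inr b, by simpa using h, by simp [gc_inr, h1, h2]⟩

theorem gm_fr_gc (b₁ b₂ : β) (hb : b₁ ≠ b₂) (x₁ x₂ u₁ u₂ y₁ y₂ v₁ v₂ : R)
    (N : P ⊕ α → Q ⊕ β → R) (x : P ⊕ α) (y : Q ⊕ β) :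
    gm b₁ b₂ x₁ x₂ u₁ u₂ y₁ y₂ v₁ v₂ N (fr x) (gc b₁ b₂ hb y) = N x y := by
  have key : ∀ N : Q ⊕ β → R, orow b₁ b₂ N (gc b₁ b₂ hb y) = N y := by
    intro N
    rcases y with q | b
    · rfl
    · by_cases h1 : b = b₁
      · subst h1; simp [gc_inr, orow]
      · by_cases h2 : b = b₂
        · subst h2; simp [gc_inr, orow, h1]
        · simp [gc_inr, orow, h1, h2]
  rcases x with p | a
  · exact key _
  · exact key _

theorem sum_nr (b₁ b₂ : β) (hb : b₁ ≠ b₂) (x₁ x₂ u₁ u₂ : R)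
    (cols : Finset (Option (Option Q) ⊕ β)) (F : Option (Option Q) ⊕ β → R) :
    ∑ c ∈ cols, nr b₁ b₂ x₁ x₂ u₁ u₂ c * F c =
      (if Sum.inl none ∈ cols then x₁ * F (Sum.inl none) else 0) +
      (if Sum.inl (some none) ∈ cols then x₂ * F (Sum.inl (some none)) else 0) +
      (if Sum.inr b₁ ∈ cols then u₁ * F (Sum.inr b₁) else 0) +
      (if Sum.inr b₂ ∈ cols then u₂ * F (Sum.inr b₂) else 0) := by
  have h1 : ∑ c ∈ cols, nr b₁ b₂ x₁ x₂ u₁ u₂ c * F c =
      ∑ c ∈ cols, ((if c = Sum.inl none then x₁ * F (Sum.inl none) else 0) +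
        (if c = Sum.inl (some none) then x₂ * F (Sum.inl (some none)) else 0) +
        (if c = Sum.inr b₁ then u₁ * F (Sum.inr b₁) else 0) +
        (if c = Sum.inr b₂ then u₂ * F (Sum.inr b₂) else 0)) := by
    refine sum_congr rfl fun c _ => ?_
    rcases c with (_ | (_ | q)) | b
    · simp [nr]
    · simp [nr]
    · simp [nr]
    · by_cases h1 : b = b₁
      · subst h1; simp [nr, hb]
      · by_cases h2 : b = b₂
        · subst h2; simp [nr, h1]
        · simp [nr, h1, h2]
  rw [h1, sum_add_distrib, sum_add_distrib, sum_add_distrib, sum_ite_eq', sum_ite_eq',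
    sum_ite_eq', sum_ite_eq']

theorem rows_eq (S : Finset α) :
    (univ : Finset (Option (Option P))).disjSum S =
      insert (Sum.inl none) (insert (Sum.inl (some none))
        (((univ : Finset P).disjSum S).map fr)) := by
  ext x
  simp only [mem_insert, mem_map, mem_disjSum, mem_univ, true_and]
  constructor
  · rintro (⟨a, rfl⟩ | ⟨a, ha, rfl⟩)
    · rcases a with _ | (_ | p)
      · exact Or.inl rfl
      · exact Or.inr (Or.inl rfl)
      · exact Or.inr (Or.inr ⟨Sum.inl p, Or.inl ⟨p, rfl⟩, rfl⟩)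
    · exact Or.inr (Or.inr ⟨Sum.inr a, Or.inr ⟨a, ha, rfl⟩, rfl⟩)
  · rintro (rfl | rfl | ⟨z, (⟨p, rfl⟩ | ⟨a, ha, rfl⟩), rfl⟩)
    · exact Or.inl ⟨_, rfl⟩
    · exact Or.inl ⟨_, rfl⟩
    · exact Or.inl ⟨_, rfl⟩
    · exact Or.inr ⟨a, ha, rfl⟩

theorem pm_gate (b₁ b₂ : β) (hb : b₁ ≠ b₂) (x₁ x₂ u₁ u₂ y₁ y₂ v₁ v₂ e f g : R)
    (N : P ⊕ α → Q ⊕ β → R)
    (h12 : x₁ * y₂ + x₂ * y₁ = e) (hu12 : u₁ * v₂ + u₂ * v₁ = f)
    (h11 : u₁ * y₁ + x₁ * v₁ = 0) (h22 : u₂ * y₂ + x₂ * v₂ = 0)
    (h1 : u₁ * y₂ + x₂ * v₁ = g) (h2 : u₂ * y₁ + x₁ * v₂ = g)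
    (S : Finset α) (T : Finset β) :
    pm (gm b₁ b₂ x₁ x₂ u₁ u₂ y₁ y₂ v₁ v₂ N) (univ.disjSum S) (univ.disjSum T) =
      (if b₁ ∈ T then (if b₂ ∈ T then f else g) else (if b₂ ∈ T then g else e)) *
        pm N (univ.disjSum S) (univ.disjSum T) := by
  set M := gm b₁ b₂ x₁ x₂ u₁ u₂ y₁ y₂ v₁ v₂ N with hM
  set rows := ((univ : Finset P).disjSum S).map (fr (P := P) (α := α)) with hrows
  set cols := (univ : Finset (Option (Option Q))).disjSum T with hcols
  have hr1 : (Sum.inl none : Option (Option P) ⊕ α) ∉ insert (Sum.inl (some none)) rows := by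
    rw [mem_insert, hrows, mem_map]
    rintro (h | ⟨z, _, hz⟩)
    · simp at h
    · rcases z with p | a <;> simp [fr_inl, fr_inr] at hz
  have hr2 : (Sum.inl (some none) : Option (Option P) ⊕ α) ∉ rows := by
    rw [hrows, mem_map]
    rintro ⟨z, _, hz⟩
    rcases z with p | a <;> simp [fr_inl, fr_inr] at hz
  set E : (Option (Option Q) ⊕ β) → (Option (Option Q) ⊕ β) → R :=
    fun c c' => pm M rows ((cols.erase c).erase c') with hE
  have Esymm : ∀ c c', E c c' = E c' c := by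
    intro c c'
    simp only [hE]
    rw [erase_right_comm]
  have exp : pm M (univ.disjSum S) cols =
      ∑ c ∈ cols, nr b₁ b₂ x₁ x₂ u₁ u₂ c * ∑ c' ∈ cols.erase c,
        nr b₁ b₂ y₁ y₂ v₁ v₂ c' * E c c' := by
    rw [rows_eq, pm_insert M _ _ _ hr1]
    refine sum_congr rfl fun c _ => ?_
    rw [pm_insert M _ _ _ hr2]
    rfl
  have orow0 : ∀ x ∈ rows, ∀ b, b = b₁ ∨ b = b₂ → M x (Sum.inr b) = 0 := by
    intro x hx b hb'
    rw [hrows, mem_map] at hx
    obtain ⟨z, _, rfl⟩ := hx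
    have : ∀ N' : Q ⊕ β → R, orow b₁ b₂ N' (Sum.inr b) = 0 := by
      intro N'
      rcases hb' with rfl | rfl
      · simp [orow]
      · simp [orow]
    rcases z with p | a
    · exact this _
    · exact this _
  have E0 : ∀ c c' b, (b = b₁ ∨ b = b₂) → b ∈ T → Sum.inr b ≠ c → Sum.inr b ≠ c' →
      E c c' = 0 := by
    intro c c' b hb' hbT hc hc'
    refine pm_eq_zero_of_col M rows _ (Sum.inr b) ?_ fun a ha => orow0 a ha b hb'
    rw [mem_erase, mem_erase]
    exact ⟨hc', hc, by rw [hcols]; simpa using hbT⟩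
  have E1 : ∀ c c', ((cols.erase c).erase c') =
      ((univ : Finset Q).disjSum T).map (gc b₁ b₂ hb) →
      E c c' = pm N (univ.disjSum S) (univ.disjSum T) := by
    intro c c' hcc
    show pm M rows _ = _
    rw [hcc, hrows, pm_map]
    congr 1
    funext x y
    exact gm_fr_gc b₁ b₂ hb x₁ x₂ u₁ u₂ y₁ y₂ v₁ v₂ N x y
  have mq1 : (Sum.inl none : Option (Option Q) ⊕ β) ∈ cols := by rw [hcols]; simp
  have mq2 : (Sum.inl (some none) : Option (Option Q) ⊕ β) ∈ cols := by rw [hcols]; simp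
  have mb : ∀ b, (Sum.inr b : Option (Option Q) ⊕ β) ∈ cols ↔ b ∈ T := by
    intro b; rw [hcols]; simp
  have hne : (Sum.inr b₁ : Option (Option Q) ⊕ β) ≠ Sum.inr b₂ := fun h => hb (Sum.inr.inj h)
  rw [exp]
  simp only [sum_nr b₁ b₂ hb]
  simp only [mem_erase, mq1, mq2, mb, ne_eq, Sum.inl.injEq, reduceCtorEq, not_false_eq_true,
    true_and, and_true, not_true_eq_false, false_and, if_true, if_false, Sum.inr.injEq,
    hb, hb.symm]
  by_cases hT1 : b₁ ∈ T
  · by_cases hT2 : b₂ ∈ T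
    · simp only [hT1, hT2, if_true]
      have z1 : E (Sum.inl none) (Sum.inl (some none)) = 0 :=
        E0 _ _ b₁ (Or.inl rfl) hT1 (by simp) (by simp)
      have z2 : E (Sum.inl none) (Sum.inr b₁) = 0 :=
        E0 _ _ b₂ (Or.inr rfl) hT2 (by simp) (by simp [hb.symm])
      have z3 : E (Sum.inl none) (Sum.inr b₂) = 0 :=
        E0 _ _ b₁ (Or.inl rfl) hT1 (by simp) (by simp [hb])
      have z4 : E (Sum.inl (some none)) (Sum.inr b₁) = 0 :=
        E0 _ _ b₂ (Or.inr rfl) hT2 (by simp) (by simp [hb.symm])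
      have z5 : E (Sum.inl (some none)) (Sum.inr b₂) = 0 :=
        E0 _ _ b₁ (Or.inl rfl) hT1 (by simp) (by simp [hb])
      have w1 : E (Sum.inr b₁) (Sum.inr b₂) = pm N (univ.disjSum S) (univ.disjSum T) := by
        refine E1 _ _ ?_
        ext y
        rw [mem_gc, mem_erase, mem_erase]
        rcases y with (_ | (_ | q)) | b
        · simp [mq1, hT1]
        · simp [mq2, hT2]
        · simp [hcols]
        · simp only [ne_eq, Sum.inr.injEq, mb, reduceCtorEq, false_and, exists_false, false_or]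
          constructor
          · rintro ⟨h1, h2, h3⟩; exact ⟨b, h3, h2, h1, rfl⟩
          · rintro ⟨b', h3, h2, h1, rfl⟩; exact ⟨h1, h2, h3⟩
      rw [Esymm (Sum.inl (some none)) (Sum.inl none), Esymm (Sum.inr b₁) (Sum.inl none),
        Esymm (Sum.inr b₂) (Sum.inl none), Esymm (Sum.inr b₁) (Sum.inl (some none)),
        Esymm (Sum.inr b₂) (Sum.inl (some none)), Esymm (Sum.inr b₂) (Sum.inr b₁),
        z1, z2, z3, z4, z5, w1, ← hu12]
      ring
    · simp only [hT1, hT2, if_true, if_false]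
      have z1 : E (Sum.inl none) (Sum.inl (some none)) = 0 :=
        E0 _ _ b₁ (Or.inl rfl) hT1 (by simp) (by simp)
      have w1 : E (Sum.inl (some none)) (Sum.inr b₁) =
          pm N (univ.disjSum S) (univ.disjSum T) := by
        refine E1 _ _ ?_
        ext y
        rw [mem_gc, mem_erase, mem_erase]
        rcases y with (_ | (_ | q)) | b
        · simp [mq1, hT1]
        · simp [hT2]
        · simp [hcols]
        · simp only [ne_eq, Sum.inr.injEq, mb, reduceCtorEq, false_and, exists_false, false_or,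
            not_false_eq_true, true_and]
          constructor
          · rintro ⟨h1, h3⟩
            exact ⟨b, h3, h1, fun h => hT2 (h ▸ h3), rfl⟩
          · rintro ⟨b', h3, h2, h1, rfl⟩; exact ⟨h2, h3⟩
      rw [Esymm (Sum.inl (some none)) (Sum.inl none), Esymm (Sum.inr b₁) (Sum.inl none),
        Esymm (Sum.inr b₁) (Sum.inl (some none)), z1, w1]
      have e1 : x₁ * (y₂ * (0:R)) = 0 := by ring
      linear_combination (E (Sum.inl none) (Sum.inr b₁)) * h11 +
        (pm N (univ.disjSum S) (univ.disjSum T)) * h1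
  · by_cases hT2 : b₂ ∈ T
    · simp only [hT1, hT2, if_true, if_false]
      have z1 : E (Sum.inl none) (Sum.inl (some none)) = 0 :=
        E0 _ _ b₂ (Or.inr rfl) hT2 (by simp) (by simp)
      have w1 : E (Sum.inl none) (Sum.inr b₂) =
          pm N (univ.disjSum S) (univ.disjSum T) := by
        refine E1 _ _ ?_
        ext y
        rw [mem_gc, mem_erase, mem_erase]
        rcases y with (_ | (_ | q)) | b
        · simp [hT1]
        · simp [mq2, hT2]
        · simp [hcols]
        · simp only [ne_eq, Sum.inr.injEq, mb, reduceCtorEq, false_and, exists_false, false_or,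
            not_false_eq_true, true_and]
          constructor
          · rintro ⟨h1, h3⟩
            exact ⟨b, h3, fun h => hT1 (h ▸ h3), h1, rfl⟩
          · rintro ⟨b', h3, h2, h1, rfl⟩; exact ⟨h1, h3⟩
      rw [Esymm (Sum.inl (some none)) (Sum.inl none), Esymm (Sum.inr b₂) (Sum.inl none),
        Esymm (Sum.inr b₂) (Sum.inl (some none)), z1, w1]
      linear_combination (E (Sum.inl (some none)) (Sum.inr b₂)) * h22 +
        (pm N (univ.disjSum S) (univ.disjSum T)) * h2
    · simp only [hT1, hT2, if_false]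
      have w1 : E (Sum.inl none) (Sum.inl (some none)) =
          pm N (univ.disjSum S) (univ.disjSum T) := by
        refine E1 _ _ ?_
        ext y
        rw [mem_gc, mem_erase, mem_erase]
        rcases y with (_ | (_ | q)) | b
        · simp [hT1]
        · simp [hT2]
        · simp [hcols]
        · simp only [ne_eq, mb, reduceCtorEq, false_and, exists_false, false_or,
            not_false_eq_true, true_and]
          constructor
          · intro h3
            exact ⟨b, h3, fun h => hT1 (h ▸ h3), fun h => hT2 (h ▸ h3), rfl⟩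
          · rintro ⟨b', h3, h2, h1, h4⟩
            rw [Sum.inr.inj h4]; exact h3
      rw [Esymm (Sum.inl (some none)) (Sum.inl none), w1]
      linear_combination (pm N (univ.disjSum S) (univ.disjSum T)) * h12

end

section

variable {ι : Type} {α β : Type} [Fintype α] [Fintype β] [DecidableEq α] [DecidableEq β]

/-- G2: the gate -/
theorem gate {p : ℕ} {w : Finset α → Finset β → MvPolynomial ι ℂ} (h : Rep α β p w)
    (b₁ b₂ : β) (hb : b₁ ≠ b₂) (s : ℂ) : Rep α β (p + 2)
      (fun S T => C s * (if b₁ ∈ T ∧ b₂ ∈ T then C (s ^ 2) else 1) * w S T) := by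
  obtain ⟨P, Q, hP, hQ, hPd, hQd, cP, cQ, N, hdeg, hN⟩ := h
  refine ⟨Option (Option P), Option (Option Q), inferInstance, inferInstance, inferInstance,
    inferInstance, by simp [cP], by simp [cQ],
    gm b₁ b₂ 1 1 (C s) (C (-s)) (C ((s - 1) / 2)) (C ((s + 1) / 2))
      (C (-s * ((s - 1) / 2))) (C (s * ((s + 1) / 2))) N, ?_, ?_⟩
  · have h1 : ∀ (x₁ x₂ u₁ u₂ : ℂ) (y : Option (Option Q) ⊕ β),
        (nr b₁ b₂ (C x₁ : MvPolynomial ι ℂ) (C x₂) (C u₁) (C u₂) y).totalDegree ≤ 1 := by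
      intro x₁ x₂ u₁ u₂ y
      rcases y with (_ | (_ | q)) | b
      · simp [nr]
      · simp [nr]
      · simp [nr]
      · simp only [nr]
        split_ifs <;> simp
    have h2 : ∀ (x : P ⊕ α) (y : Option (Option Q) ⊕ β),
        (orow b₁ b₂ (N x) y).totalDegree ≤ 1 := by
      intro x y
      rcases y with (_ | (_ | q)) | b
      · exact hdeg _ _
      · exact hdeg _ _
      · exact hdeg _ _
      · simp only [orow]
        split_ifs
        · simp
        · simp
        · exact hdeg _ _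
    rintro ((_ | (_ | p)) | a) y
    · have := h1 1 1 s (-s) y
      simpa [gm] using this
    · exact h1 _ _ _ _ y
    · exact h2 _ y
    · exact h2 _ y
  · intro S T
    rw [pm_gate b₁ b₂ hb 1 1 (C s) (C (-s)) (C ((s - 1) / 2)) (C ((s + 1) / 2))
      (C (-s * ((s - 1) / 2))) (C (s * ((s + 1) / 2))) (C s) (C (s ^ 3)) (C s) N, hN]
    · by_cases hT1 : b₁ ∈ T
      · by_cases hT2 : b₂ ∈ T
        · simp only [hT1, hT2, and_self, if_true]
          rw [← C_mul]
          congr 2
          ring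
        · simp only [hT1, hT2, and_false, if_true, if_false, mul_one]
      · by_cases hT2 : b₂ ∈ T
        · simp only [hT1, hT2, false_and, if_true, if_false, mul_one]
        · simp only [hT1, hT2, false_and, if_false, mul_one]
    · rw [one_mul, one_mul, ← C_add]; congr 1; ring
    · rw [← C_mul, ← C_mul, ← C_add]; congr 1; ring
    · rw [one_mul, ← C_mul, ← C_add, ← C_0]; congr 1; ring
    · rw [one_mul, ← C_mul, ← C_add, ← C_0]; congr 1; ring
    · rw [one_mul, ← C_mul, ← C_add]; congr 1; ring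
    · rw [one_mul, ← C_mul, ← C_add]; congr 1; ring

end

end L5helper34.NC.G
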