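import Pool.Agent.L5helper34.NC.MultiOf
import Pool.Agent.L5helper34.NC.Gate

/-!
The step and the many layers.
-/

namespace L5helper34.NC

theorem gateStmt : GateStmt := fun h b₁ b₂ hb s => G.gate h b₁ b₂ hb s

end L5helper34.NC

namespace L5lead.NC

open Finset MvPolynomial

/-- G5': gates between `none` and all other ports, and closing `none` -/
theorem Rep.step {ι : Type} {α β : Type} [Fintype α] [Fintype β] [DecidableEq α]
    [DecidableEq β] {p : ℕ}
    {w : Finset (Option α) → Finset (Option β) → MvPolynomial ι ℂ}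
    (h : Rep (Option α) (Option β) p w) (a : β → ℂ) (c : α → ℂ) (μ : ℂ)
    (ha : ∀ i, a i ≠ 0) (hc : ∀ j, c j ≠ 0) :
    ∃ K : ℂ, K ≠ 0 ∧ Rep α β (p + (2 * Fintype.card α + 2 * Fintype.card β + 2))
      (fun S T => C K * (w (S.map .some) (T.map .some) +
        C (μ * ((∏ i ∈ T, a i) * ∏ j ∈ S, c j)) * w S.insertNone T.insertNone)) :=
  L5helper34.NC.step' L5helper34.NC.gateStmt h a c μ ha hc

/-- G5'': the sum over `z < 2 ^ L` -/
theorem Rep.multi {ι : Type} (L : ℕ) {α β : Type} [Fintype α] [Fintype β]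
    [DecidableEq α] [DecidableEq β] {p : ℕ}
    {w : Finset α → Finset β → MvPolynomial ι ℂ} (h : Rep α β p w) (a : β → ℂ) (c : α → ℂ)
    (τ : ℂ) (ha : ∀ i, a i ≠ 0) (hc : ∀ j, c j ≠ 0) (hτ : τ ≠ 0) :
    ∃ K : ℂ, K ≠ 0 ∧
      Rep α β (p + (L * (2 * Fintype.card α + 2 * Fintype.card β) + 2 * L ^ 2))
        (fun S T => C K * C (∑ z ∈ range (2 ^ L), τ ^ (z ^ 2) *
          ((∏ i ∈ T, a i) * ∏ j ∈ S, c j) ^ z) * w S T) :=
  L5helper34.NC.multi' L5helper34.NC.gateStmt L h a c τ ha hc hτ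

end L5lead.NC
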