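import Pool.Agent.L5helper54.NC.Basic
import Pool.Agent.L5helper58.NC.Multi

/-!
Scaling of a port and the combination gates + closing for the nearly cubic bound.
-/

namespace L5helper34.NC

open Finset MvPolynomial L5helper59.DC L5lead.NC

set_option linter.unusedSectionVars false

variable {ι : Type} {α β γ : Type} [Fintype α] [Fintype β] [Fintype γ] [DecidableEq α]
  [DecidableEq β] [DecidableEq γ]

theorem pm_scale {R : Type*} [CommRing R] (N : α → β → R) (u : β → R) (S : Finset α) :
    ∀ T : Finset β, pm (fun i j => u j * N i j) S T = (∏ j ∈ T, u j) * pm N S T := by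
  induction S using Finset.induction_on with
  | empty =>
    intro T
    rw [pm_empty, pm_empty]
    split_ifs with h
    · subst h; simp
    · simp
  | insert a S ha ih =>
    intro T
    rw [pm_insert _ _ _ _ ha, pm_insert _ _ _ _ ha, Finset.mul_sum]
    refine Finset.sum_congr rfl fun c hc => ?_
    rw [ih, ← Finset.mul_prod_erase T u hc]
    ring

/-- scaling a column port -/
theorem Rep.scale {p : ℕ} {w : Finset α → Finset β → MvPolynomial ι ℂ} (h : Rep α β p w)
    (b₀ : β) (μ : ℂ) :
    Rep α β p (fun S T => (if b₀ ∈ T then C μ else 1) * w S T) := by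
  obtain ⟨P, Q, hP, hQ, hPd, hQd, cP, cQ, N, hdeg, hN⟩ := h
  refine ⟨P, Q, hP, hQ, hPd, hQd, cP, cQ, fun x y =>
    (Sum.elim (fun _ => 1) (fun b => if b = b₀ then C μ else 1) y : MvPolynomial ι ℂ) * N x y,
    ?_, ?_⟩
  · intro x y
    refine (totalDegree_mul _ _).trans ?_
    have h1 : (Sum.elim (fun _ => 1) (fun b => if b = b₀ then C μ else 1) y :
        MvPolynomial ι ℂ).totalDegree = 0 := by
      rcases y with y | y
      · simp
      · simp only [Sum.elim_inr]
        split_ifs
        · exact totalDegree_C _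
        · exact totalDegree_one
    rw [h1, zero_add]
    exact hdeg x y
  · intro S T
    rw [pm_scale, hN]
    congr 1
    rw [Finset.prod_disjSum]
    simp only [Sum.elim_inl, Sum.elim_inr, Finset.prod_const_one, one_mul]
    rw [Finset.prod_ite_eq']

/-- statement of G2 -/
def GateStmt : Prop :=
  ∀ {ι : Type} {α β : Type} [Fintype α] [Fintype β] [DecidableEq α] [DecidableEq β] {p : ℕ}
    {w : Finset α → Finset β → MvPolynomial ι ℂ}, Rep α β p w → ∀ (b₁ b₂ : β), b₁ ≠ b₂ →
    ∀ s : ℂ, Rep α β (p + 2)
      (fun S T => C s * (if b₁ ∈ T ∧ b₂ ∈ T then C (s ^ 2) else 1) * w S T)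

/-- statement of G4 -/
def CloseStmt : Prop :=
  ∀ {ι : Type} {α β : Type} [Fintype α] [Fintype β] [DecidableEq α] [DecidableEq β] {p : ℕ}
    {w : Finset (Option α) → Finset (Option β) → MvPolynomial ι ℂ},
    Rep (Option α) (Option β) p w → Rep α β (p + 2)
      (fun S T => w (S.map .some) (T.map .some) + w S.insertNone T.insertNone)

theorem gates_aux (hG : GateStmt) {p : ℕ} {w : Finset γ → Finset (Option β) → MvPolynomial ι ℂ}
    (h : Rep γ (Option β) p w) (s : β → ℂ) (U : Finset β) :
    Rep γ (Option β) (p + 2 * U.card) (fun S T => C (∏ i ∈ U, s i) *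
      (if none ∈ T then C (∏ i ∈ U.filter (fun i => some i ∈ T), s i ^ 2) else 1) * w S T) := by
  induction U using Finset.induction_on with
  | empty => simpa using h
  | insert a U ha ih =>
    have h1 := hG ih none (some a) (by simp) (s a)
    rw [Finset.card_insert_of_notMem ha, Nat.mul_succ, ← add_assoc]
    convert h1 using 3 with S T
    rw [Finset.prod_insert ha, C_mul]
    by_cases hT : none ∈ T
    · by_cases hT2 : some a ∈ T
      · rw [if_pos hT, if_pos hT, if_pos ⟨hT, hT2⟩, Finset.filter_insert, if_pos hT2,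
          Finset.prod_insert (fun h => ha (Finset.mem_filter.mp h).1), C_mul]
        ring
      · rw [if_pos hT, if_pos hT, if_neg (fun h => hT2 h.2), Finset.filter_insert, if_neg hT2]
        ring
    · rw [if_neg hT, if_neg hT, if_neg (fun h => hT h.1)]
      ring

theorem gates (hG : GateStmt) {p : ℕ} {w : Finset γ → Finset (Option β) → MvPolynomial ι ℂ}
    (h : Rep γ (Option β) p w) (a : β → ℂ) (ha : ∀ i, a i ≠ 0) :
    ∃ K : ℂ, K ≠ 0 ∧ Rep γ (Option β) (p + 2 * Fintype.card β) (fun S T => C K *
      (if none ∈ T then C (∏ i ∈ T.eraseNone, a i) else 1) * w S T) := by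
  choose s hs using fun i => IsAlgClosed.exists_pow_nat_eq (a i) two_pos
  refine ⟨∏ i, s i, Finset.prod_ne_zero_iff.mpr fun i _ h0 => ha i ?_, ?_⟩
  · rw [← hs i, h0, zero_pow two_ne_zero]
  · have h1 := gates_aux hG h s univ
    rw [Finset.card_univ] at h1
    convert h1 using 6 with S T
    refine congrArg C (Finset.prod_congr ?_ fun i _ => (hs i).symm)
    ext i
    simp

/-- G5': gates and closing -/
theorem step_of (hG : GateStmt) (hC : CloseStmt) : L5helper58.NC.StepStmt := by
  intro ι α β _ _ _ _ p w h a c μ ha hc _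
  obtain ⟨K₁, hK₁, h2⟩ := gates hG (Rep.scale h none μ) a ha
  obtain ⟨K₂, hK₂, h4⟩ := gates hG h2.transpose c hc
  have h6 := hC h4.transpose
  refine ⟨K₂ * K₁, mul_ne_zero hK₂ hK₁, ?_⟩
  have hp : p + 2 * Fintype.card α + 2 * Fintype.card β + 2 =
      p + 2 * Fintype.card β + 2 * Fintype.card α + 2 := by ring
  rw [hp]
  convert h6 using 3 with S T
  have e1 : ∀ S : Finset α, (none : Option α) ∉ S.map .some := fun S => by simp
  have e2 : ∀ T : Finset β, (none : Option β) ∉ T.map .some := fun T => by simp
  rw [if_neg (e1 S), if_neg (e2 T), if_neg (e2 T), if_pos (by simp), if_pos (by simp),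
    if_pos (by simp), Finset.eraseNone_insertNone, Finset.eraseNone_insertNone]
  simp only [C_mul]
  ring

end L5helper34.NC
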