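import Pool.Agent.L5helper18.NC.Ports
import Pool.Agent.L5helper34.NC.Step

/-!
The step and the many layers, from the gate alone.
-/

namespace L5helper34.NC

open Finset MvPolynomial L5lead.NC

theorem closeStmt : CloseStmt := fun h => h.close

theorem extendStmt : L5helper58.NC.ExtendStmt := fun h => h.extend

theorem step' (hG : GateStmt) {ι : Type} {α β : Type} [Fintype α] [Fintype β] [DecidableEq α]
    [DecidableEq β] {p : ℕ}
    {w : Finset (Option α) → Finset (Option β) → MvPolynomial ι ℂ}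
    (h : Rep (Option α) (Option β) p w) (a : β → ℂ) (c : α → ℂ) (μ : ℂ)
    (ha : ∀ i, a i ≠ 0) (hc : ∀ j, c j ≠ 0) :
    ∃ K : ℂ, K ≠ 0 ∧ Rep α β (p + (2 * Fintype.card α + 2 * Fintype.card β + 2))
      (fun S T => C K * (w (S.map .some) (T.map .some) +
        C (μ * ((∏ i ∈ T, a i) * ∏ j ∈ S, c j)) * w S.insertNone T.insertNone)) := by
  obtain ⟨K₁, hK₁, h2⟩ := gates hG (Rep.scale h none μ) a ha
  obtain ⟨K₂, hK₂, h4⟩ := gates hG h2.transpose c hc
  have h6 := closeStmt h4.transpose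
  refine ⟨K₂ * K₁, mul_ne_zero hK₂ hK₁, ?_⟩
  have hp : p + (2 * Fintype.card α + 2 * Fintype.card β + 2) =
      p + 2 * Fintype.card β + 2 * Fintype.card α + 2 := by ring
  rw [hp]
  convert h6 using 3 with S T
  have e1 : ∀ S : Finset α, (none : Option α) ∉ S.map .some := fun S => by simp
  have e2 : ∀ T : Finset β, (none : Option β) ∉ T.map .some := fun T => by simp
  rw [if_neg (e1 S), if_neg (e2 T), if_neg (e2 T), if_pos (by simp), if_pos (by simp),
    if_pos (by simp), Finset.eraseNone_insertNone, Finset.eraseNone_insertNone]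
  simp only [C_mul]
  ring

theorem multi' (hG : GateStmt) (L : ℕ) {ι : Type} {α β : Type} [Fintype α] [Fintype β]
    [DecidableEq α] [DecidableEq β] {p : ℕ}
    {w : Finset α → Finset β → MvPolynomial ι ℂ} (h : Rep α β p w) (a : β → ℂ) (c : α → ℂ)
    (τ : ℂ) (ha : ∀ i, a i ≠ 0) (hc : ∀ j, c j ≠ 0) (hτ : τ ≠ 0) :
    ∃ K : ℂ, K ≠ 0 ∧
      Rep α β (p + (L * (2 * Fintype.card α + 2 * Fintype.card β) + 2 * L ^ 2))
        (fun S T => C K * C (∑ z ∈ range (2 ^ L), τ ^ (z ^ 2) *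
          ((∏ i ∈ T, a i) * ∏ j ∈ S, c j) ^ z) * w S T) := by
  obtain ⟨K, hK, h1⟩ := L5helper58.NC.multi_of extendStmt (step_of hG closeStmt) L h a c τ ha hc hτ
  refine ⟨K, hK, ?_⟩
  rw [← add_assoc]
  exact h1

end L5helper34.NC
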